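import Mathlib
set_option autoImplicit false
open MeasureTheory
open scoped ENNReal
namespace Pool.Agent.W902.HM

theorem weak_strong {S : Type*} [MeasurableSpace S] (ν : Measure S) [IsFiniteMeasure ν]
    (F : S → ℝ≥0∞) (K : ℝ≥0∞) (p r : ℝ) (hp : 0 < p) (hr : p < r)
    (h : ∀ l : ℝ, 0 < l → ν {e | ENNReal.ofReal l < F e} ≤ K * ENNReal.ofReal (l ^ (-r))) :
    ∫⁻ e, F e ^ p ∂ν ≤ K ^ (p / r) * (ν Set.univ +
      ENNReal.ofReal (2 ^ p) * (1 - ENNReal.ofReal (2 ^ (-(r - p))))⁻¹) := by
  have hr0 : 0 < r := hp.trans hr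
  have hpr : 0 < p / r := div_pos hp hr0
  have hM : ENNReal.ofReal (2 ^ p) * (1 - ENNReal.ofReal (2 ^ (-(r - p))))⁻¹ ≠ 0 := by
    refine mul_ne_zero ?_ ?_
    · rw [Ne, ENNReal.ofReal_eq_zero, not_le]; positivity
    · rw [ENNReal.inv_ne_zero]
      exact ne_of_lt (lt_of_le_of_lt tsub_le_self ENNReal.one_lt_top)
  rcases eq_or_ne K ⊤ with hK | hK
  · rw [hK, ENNReal.top_rpow_of_pos hpr, ENNReal.top_mul]
    · exact le_top
    · intro h0
      rw [add_eq_zero] at h0
      exact hM h0.2
  rcases eq_or_ne K 0 with hK0 | hK0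
  · -- F = 0 a.e.
    have hz : ν {e | 0 < F e} = 0 := by
      have : {e | 0 < F e} ⊆ ⋃ k : ℕ, {e | ENNReal.ofReal (1 / ((k : ℝ) + 1)) < F e} := by
        intro e he
        simp only [Set.mem_iUnion, Set.mem_ofPred_eq] at he ⊢
        obtain ⟨y, hy0, hy⟩ := ENNReal.lt_iff_exists_nnreal_btwn.mp he
        have hy0' : (0 : ℝ) < y := by exact_mod_cast hy0
        obtain ⟨k, hk⟩ := exists_nat_one_div_lt hy0'
        refine ⟨k, lt_of_le_of_lt ?_ hy⟩
        rw [ENNReal.ofReal_le_iff_le_toReal (by simp)]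
        simpa using hk.le
      refine le_antisymm (le_trans (measure_mono this) ?_) zero_le
      refine le_trans (measure_iUnion_le _) ?_
      rw [nonpos_iff_eq_zero, ENNReal.tsum_eq_zero]
      intro k
      have := h (1 / ((k : ℝ) + 1)) (by positivity)
      rw [hK0, zero_mul] at this
      exact le_antisymm this zero_le
    have hae : ∀ᵐ e ∂ν, F e ^ p ≤ 0 := by
      rw [ae_iff]
      refine measure_mono_null ?_ hz
      intro e he
      simp only [Set.mem_ofPred_eq] at he ⊢
      by_contra h0
      apply he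
      rw [not_lt, nonpos_iff_eq_zero] at h0
      rw [h0, ENNReal.zero_rpow_of_pos hp]
    calc ∫⁻ e, F e ^ p ∂ν ≤ ∫⁻ _, 0 ∂ν := lintegral_mono_ae hae
      _ = 0 := by simp
      _ ≤ _ := zero_le
  · -- main case
    obtain ⟨κ, hκ0, hκ⟩ : ∃ κ : ℝ, 0 < κ ∧ K = ENNReal.ofReal κ :=
      ⟨K.toReal, ENNReal.toReal_pos hK0 hK, (ENNReal.ofReal_toReal hK).symm⟩
    obtain ⟨B, hB0, hB⟩ : ∃ B : ℝ, 0 < B ∧ B ^ r = κ :=
      ⟨κ ^ (1 / r), by positivity, by rw [← Real.rpow_mul hκ0.le, one_div_mul_cancel hr0.ne', Real.rpow_one]⟩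
    have hKp : K ^ (p / r) = ENNReal.ofReal (B ^ p) := by
      rw [hκ, ENNReal.ofReal_rpow_of_pos hκ0, ← hB, ← Real.rpow_mul hB0.le,
        mul_div_cancel₀ p hr0.ne']
    set A : ℕ → Set S := fun k => toMeasurable ν {e | ENNReal.ofReal (2 ^ k * B) < F e} with hA
    have hAm : ∀ k, MeasurableSet (A k) := fun k => measurableSet_toMeasurable _ _
    have hAν : ∀ k, ν (A k) ≤ ENNReal.ofReal (κ * (2 ^ k * B) ^ (-r)) := by
      intro k
      rw [hA]
      simp only
      rw [measure_toMeasurable]
      refine (h (2 ^ k * B) (by positivity)).trans ?_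
      rw [hκ, ← ENNReal.ofReal_mul hκ0.le]
    have hpt : ∀ e, F e ^ p ≤ ENNReal.ofReal (B ^ p) +
        ∑' k : ℕ, (A k).indicator (fun _ => ENNReal.ofReal ((2 ^ (k + 1) * B) ^ p)) e := by
      intro e
      rcases le_or_gt (F e) (ENNReal.ofReal B) with h1 | h1
      · refine le_trans (ENNReal.rpow_le_rpow h1 hp.le) ?_
        rw [ENNReal.ofReal_rpow_of_pos hB0]
        exact le_self_add
      · rcases eq_or_ne (F e) ⊤ with h2 | h2
        · have : ∑' k : ℕ, (A k).indicator (fun _ => ENNReal.ofReal ((2 ^ (k + 1) * B) ^ p)) e = ⊤ := by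
            rw [eq_top_iff]
            have h3 : ∀ k : ℕ, ENNReal.ofReal (B ^ p) ≤
                (A k).indicator (fun _ => ENNReal.ofReal ((2 ^ (k + 1) * B) ^ p)) e := by
              intro k
              rw [Set.indicator_of_mem]
              · apply ENNReal.ofReal_le_ofReal
                apply Real.rpow_le_rpow hB0.le _ hp.le
                have : (1 : ℝ) ≤ 2 ^ (k + 1) := one_le_pow₀ (by norm_num)
                nlinarith
              · apply subset_toMeasurable
                simp only [Set.mem_ofPred_eq, h2]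
                exact ENNReal.ofReal_lt_top
            calc (⊤ : ℝ≥0∞) = ∑' _ : ℕ, ENNReal.ofReal (B ^ p) := by
                  rw [ENNReal.tsum_const_eq_top_of_ne_zero]
                  rw [Ne, ENNReal.ofReal_eq_zero, not_le]; positivity
              _ ≤ _ := ENNReal.tsum_le_tsum h3
          rw [this, add_top]
          exact le_top
        · obtain ⟨x, hx⟩ : ∃ x : ℝ, F e = ENNReal.ofReal x := ⟨(F e).toReal, (ENNReal.ofReal_toReal h2).symm⟩
          have hx1 : B < x := by
            rw [hx] at h1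
            exact (ENNReal.ofReal_lt_ofReal_iff_of_nonneg hB0.le).mp h1
          have hx0 : 0 < x := hB0.trans hx1
          obtain ⟨n, hn1, hn2⟩ := exists_nat_pow_near (x := x / B) (y := 2) (by rw [le_div_iff₀ hB0]; linarith) (by norm_num)
          -- 2^n ≤ x/B < 2^(n+1)
          have hk : ∃ k : ℕ, 2 ^ k * B < x ∧ x ≤ 2 ^ (k + 1) * B := by
            rcases hn1.eq_or_lt with h3 | h3
            · cases n with
              | zero =>
                exfalso
                rw [pow_zero, eq_div_iff hB0.ne'] at h3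
                linarith
              | succ n =>
                refine ⟨n, ?_, ?_⟩
                · rw [eq_div_iff hB0.ne'] at h3
                  rw [← h3, pow_succ]
                  have : (0 : ℝ) < 2 ^ n * B := by positivity
                  linarith
                · rw [eq_div_iff hB0.ne'] at h3
                  exact h3.symm.le
            · refine ⟨n, by rwa [lt_div_iff₀ hB0] at h3, ?_⟩
              rw [div_lt_iff₀ hB0] at hn2
              exact hn2.le
          obtain ⟨k, hk1, hk2⟩ := hk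
          refine le_trans ?_ (le_trans (ENNReal.le_tsum k) le_add_self)
          rw [Set.indicator_of_mem, hx, ENNReal.ofReal_rpow_of_pos hx0]
          · exact ENNReal.ofReal_le_ofReal (Real.rpow_le_rpow hx0.le hk2 hp.le)
          · apply subset_toMeasurable
            simp only [Set.mem_ofPred_eq, hx]
            exact (ENNReal.ofReal_lt_ofReal_iff hx0).mpr hk1
    calc ∫⁻ e, F e ^ p ∂ν ≤ ∫⁻ e, (ENNReal.ofReal (B ^ p) +
        ∑' k : ℕ, (A k).indicator (fun _ => ENNReal.ofReal ((2 ^ (k + 1) * B) ^ p)) e) ∂ν :=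
          lintegral_mono hpt
      _ = ENNReal.ofReal (B ^ p) * ν Set.univ +
          ∑' k : ℕ, ENNReal.ofReal ((2 ^ (k + 1) * B) ^ p) * ν (A k) := by
          rw [lintegral_add_left measurable_const, lintegral_const, lintegral_tsum]
          · congr 1
            refine tsum_congr fun k => ?_
            rw [lintegral_indicator (hAm k), lintegral_const, Measure.restrict_apply_univ]
          · intro k
            exact (measurable_const.indicator (hAm k)).aemeasurable
      _ ≤ ENNReal.ofReal (B ^ p) * ν Set.univ +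
          ∑' k : ℕ, ENNReal.ofReal (B ^ p) * (ENNReal.ofReal (2 ^ p) *
            (ENNReal.ofReal (2 ^ (-(r - p)))) ^ k) := by
          refine add_le_add le_rfl (ENNReal.tsum_le_tsum fun k => ?_)
          refine le_trans (mul_le_mul' le_rfl (hAν k)) ?_
          rw [← ENNReal.ofReal_mul (by positivity), ← ENNReal.ofReal_pow (by positivity),
            ← ENNReal.ofReal_mul (by positivity), ← ENNReal.ofReal_mul (by positivity)]
          apply ENNReal.ofReal_le_ofReal
          apply le_of_eq
          rw [← hB]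
          have e1 : ((2 : ℝ) ^ (k + 1) * B) ^ p = (2 : ℝ) ^ (((k : ℝ) + 1) * p) * B ^ p := by
            rw [Real.mul_rpow (by positivity) hB0.le, ← Real.rpow_natCast, ← Real.rpow_mul (by norm_num)]
            push_cast
            rfl
          have e2 : ((2 : ℝ) ^ k * B) ^ (-r) = (2 : ℝ) ^ ((k : ℝ) * (-r)) * B ^ (-r) := by
            rw [Real.mul_rpow (by positivity) hB0.le, ← Real.rpow_natCast, ← Real.rpow_mul (by norm_num)]
          have e3 : ((2 : ℝ) ^ (-(r - p))) ^ k = (2 : ℝ) ^ ((-(r - p)) * (k : ℝ)) := by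
            rw [← Real.rpow_natCast, ← Real.rpow_mul (by norm_num)]
          rw [e1, e2, e3]
          have e4 : B ^ r * B ^ (-r) = 1 := by
            rw [← Real.rpow_add hB0, add_neg_cancel, Real.rpow_zero]
          calc (2 : ℝ) ^ (((k : ℝ) + 1) * p) * B ^ p * (B ^ r * ((2 : ℝ) ^ ((k : ℝ) * (-r)) * B ^ (-r)))
              = ((2 : ℝ) ^ (((k : ℝ) + 1) * p) * (2 : ℝ) ^ ((k : ℝ) * (-r))) * B ^ p * (B ^ r * B ^ (-r)) := by ring
            _ = (2 : ℝ) ^ (((k : ℝ) + 1) * p + (k : ℝ) * (-r)) * B ^ p := by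
                rw [e4, ← Real.rpow_add (by norm_num), mul_one]
            _ = B ^ p * (2 ^ p * 2 ^ (-(r - p) * (k : ℝ))) := by
                rw [← Real.rpow_add (by norm_num), mul_comm]
                congr 2
                ring
      _ = K ^ (p / r) * (ν Set.univ +
          ENNReal.ofReal (2 ^ p) * (1 - ENNReal.ofReal (2 ^ (-(r - p))))⁻¹) := by
          rw [ENNReal.tsum_mul_left, ENNReal.tsum_mul_left, ENNReal.tsum_geometric, hKp, mul_add]

end Pool.Agent.W902.HM
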