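import Pool.Agent.W46.HM.Stm2
import Pool.Agent.W902.HM.Weak

/-! # Strong type estimate for the Kakeya maximal function from the weak type estimate -/

set_option autoImplicit false

open MeasureTheory
open scoped ENNReal

namespace Pool.Agent.W902.HM
open Pool.Agent.W46.HM

theorem STRONG (h : S_WEAK) : S_STRONG := by
  intro d hd
  obtain ⟨C, hC, hw⟩ := h d hd
  obtain ⟨c, hc⟩ : ∃ c : ℝ, c = 16752 / 10000 := ⟨_, rfl⟩
  rw [← hc] at hw
  rw [← hc]
  have hc1 : 1 < c := by rw [hc]; norm_num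
  have hc0 : 0 < c := by linarith
  have hd0 : (25 : ℝ) ≤ d := by exact_mod_cast hd
  have hpc : (1 + (d : ℝ) / c) * c = (d : ℝ) + c := by field_simp; ring
  have hp : 0 < 1 + (d : ℝ) / c := by positivity
  have hpr : 1 + (d : ℝ) / c < (d : ℝ) + c := by
    have h1 : (d : ℝ) / c ≤ d := div_le_self (by linarith) hc1.le
    linarith
  have hr : 0 < (d : ℝ) + c := by positivity
  have hratio : (1 + (d : ℝ) / c) / ((d : ℝ) + c) = 1 / c := by
    rw [← hpc]; field_simp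
  obtain ⟨M, hM⟩ : ∃ M : ℝ≥0∞, M = (volume : Measure (EuclideanSpace ℝ (Fin (d + 1)))).toSphere Set.univ +
      ENNReal.ofReal (2 ^ (1 + (d : ℝ) / c)) *
        (1 - ENNReal.ofReal (2 ^ (-(((d : ℝ) + c) - (1 + (d : ℝ) / c)))))⁻¹ := ⟨_, rfl⟩
  have hMt : M ≠ ⊤ := by
    rw [hM]
    refine ENNReal.add_ne_top.mpr ⟨measure_ne_top _ _, ENNReal.mul_ne_top ENNReal.ofReal_ne_top ?_⟩
    rw [ENNReal.inv_ne_top]
    refine (tsub_pos_of_lt ?_).ne'
    rw [← ENNReal.ofReal_one]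
    refine (ENNReal.ofReal_lt_ofReal_iff one_pos).mpr ?_
    exact Real.rpow_lt_one_of_one_lt_of_neg (by norm_num) (by linarith)
  refine ⟨C ^ (1 / c) * (M.toReal + 1), by positivity, ?_⟩
  intro δ hδ hδ1 f hf
  have key := weak_strong (volume : Measure (EuclideanSpace ℝ (Fin (d + 1)))).toSphere
    (fun e : Metric.sphere (0 : EuclideanSpace ℝ (Fin (d + 1))) 1 =>
      kmax δ f (e : EuclideanSpace ℝ (Fin (d + 1))))
    (ENNReal.ofReal (C * δ ^ (-((c - 1) * (d : ℝ)))) * (∫⁻ y, f y ^ (1 + (d : ℝ) / c)) ^ c)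
    (1 + (d : ℝ) / c) ((d : ℝ) + c) hp hpr (by
      intro l hl
      refine (hw δ hδ hδ1 f hf l hl).trans (le_of_eq ?_)
      rw [ENNReal.ofReal_mul (by positivity : 0 ≤ C * δ ^ (-((c - 1) * (d : ℝ))))]
      ring)
  rw [← hM, hratio] at key
  refine key.trans ?_
  have e1 : (ENNReal.ofReal (C * δ ^ (-((c - 1) * (d : ℝ)))) *
      (∫⁻ y, f y ^ (1 + (d : ℝ) / c)) ^ c) ^ (1 / c) =
      ENNReal.ofReal (C ^ (1 / c) * δ ^ (-((d : ℝ) - (d : ℝ) / c))) *
        ∫⁻ y, f y ^ (1 + (d : ℝ) / c) := by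
    rw [ENNReal.mul_rpow_of_nonneg _ _ (by positivity), ← ENNReal.rpow_mul,
      mul_one_div_cancel hc0.ne', ENNReal.rpow_one,
      ENNReal.ofReal_rpow_of_pos (by positivity), Real.mul_rpow hC.le (by positivity),
      ← Real.rpow_mul hδ.le]
    congr 4
    field_simp
  rw [e1]
  have e2 : M ≤ ENNReal.ofReal (M.toReal + 1) := by
    calc M = ENNReal.ofReal M.toReal := (ENNReal.ofReal_toReal hMt).symm
      _ ≤ _ := ENNReal.ofReal_le_ofReal (by linarith)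
  calc ENNReal.ofReal (C ^ (1 / c) * δ ^ (-((d : ℝ) - (d : ℝ) / c))) *
        (∫⁻ y, f y ^ (1 + (d : ℝ) / c)) * M
      ≤ ENNReal.ofReal (C ^ (1 / c) * δ ^ (-((d : ℝ) - (d : ℝ) / c))) *
        (∫⁻ y, f y ^ (1 + (d : ℝ) / c)) * ENNReal.ofReal (M.toReal + 1) := by gcongr
    _ = ENNReal.ofReal (C ^ (1 / c) * (M.toReal + 1) * δ ^ (-((d : ℝ) - (d : ℝ) / c))) *
        ∫⁻ y, f y ^ (1 + (d : ℝ) / c) := by
      rw [mul_right_comm, ← ENNReal.ofReal_mul (by positivity)]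
      congr 2
      ring

end Pool.Agent.W902.HM
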